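import Pool.Agent.AT12.Stmts2
import Pool.Agent.Helper49_AT3.BRG
import Pool.Agent.Helper62_AT3.CO2

/-!
# Squad AT12, row OAV: orthogonality for the numbers `Av` at the powers of `y`
-/

open scoped BigOperators

noncomputable section

namespace Pool.Agent.PP.T12.H33

open Pool.Agent.Helper51_AWC Pool.Agent.Helper79_WRA Pool.Agent.PP Pool.Agent.PP.KF
open Pool.Agent.PP.K9 Pool.Agent.PP.K9.H97 Pool.Agent.PP.H75 Pool.Agent.PP.T3 Pool.Agent.PP.T2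
open Pool.Agent.PP.T8 Pool.Agent.PP.T12

attribute [local instance] Ideal.Quotient.field

section tools

variable {G H : Type} [Group G] [Finite G] [Group H] [Finite H]
  {M : Ideal (integralClosure ℤ ℂ)} [M.IsMaximal]

/-- the elements of a defect group are `ℓ`-elements -/
theorem el_mem {F : Type} [Field F] {ℓ : ℕ} {e : G → F} {V : Subgroup G} {γ : G → F}
    (hL : Ld ℓ e V γ) {v : G} (hv : v ∈ V) : El ℓ v := by
  obtain ⟨n, hn⟩ := hL.tp.pg ⟨v, hv⟩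
  exact ⟨n, congrArg (fun v : V => (v : G)) hn⟩

/-- transport of the function `q` to an equal subgroup -/
theorem trq {ℓ : ℕ} {C C' : Subgroup G} (h : C' = C) (β : G → FF M) (q : C → ℂ) (hr : Rc ℓ q)
    (hm : mulF q (eh M (fun t : C => β t)) = q) : ∃ q' : C' → ℂ, Rc ℓ q' ∧
    mulF q' (eh M (fun t : C' => β t)) = q' ∧ ∀ (x : G) (χ : G → ℂ),
      gbv C x q χ = gbv C' x q' χ := by
  subst h
  exact ⟨q, hr, hm, fun _ _ => rfl⟩

theorem ze_span {f : H → FF M} {p : H → ℂ} (hp : p ∈ ZE M f) :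
    p ∈ Submodule.span ℂ (IrrE M f) := by
  have h : ZE M f ≤ (Submodule.span ℂ (IrrE M f)).toAddSubgroup := by
    unfold ZE
    rw [AddSubgroup.closure_le]
    intro x hx
    exact Submodule.subset_span hx
  exact h hp

/-- the numbers `Av` at the powers of `y` -/
theorem avq (ha : QavStmt) (hl : T3.LpwStmt) {ℓ : ℕ} [Fact ℓ.Prime]
    (hM : (ℓ : integralClosure ℤ ℂ) ∈ M) {a : ℕ} {e : G → FF M} {V : Subgroup G}
    {γ : G → FF M} {y : G} {β : G → FF M} {π : Cu y →* H} {m K : ℕ} {g : Fin m → H → ℂ}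
    (hS : Sy M ℓ a e V γ y β π m K g) {j : ℕ} (hj : ¬ ℓ ∣ j) {p : H → ℂ}
    (hp : p ∈ ZE M (push π (fun t : Cu y => β t))) (hr : Rc ℓ p) :
    ∃ q : Cu (y ^ j) → ℂ, Rc ℓ q ∧ mulF q (eh M (fun t : Cu (y ^ j) => β t)) = q ∧
      ∀ χ : G → ℂ, Av ℓ π (y ^ j) p χ = gbv (Cu (y ^ j)) (y ^ j) q χ := by
  have hF : GoodF ℓ (FF M) := H50.fld ℓ Fact.out M hM
  obtain ⟨q, h1, h2, h3⟩ := ha ℓ M hM G H y (ℓ ^ a) π hS.qn β hS.lc.blk.ix p (ze_span hp) hr
  have hC := (hl ℓ (FF M) hF G e V γ hS.ld y hS.mem β hS.lc j hj).1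
  obtain ⟨q', h4, h5, h6⟩ := trq (M := M) hC β q h1 h2
  exact ⟨q', h4, h5, fun χ => by rw [h3, h6]⟩

/-- orthogonality for two elements of `V` which are not conjugate in the inertial group -/
theorem core (hq : QorStmt) (hs : T3.FusStmt) {ℓ : ℕ} [Fact ℓ.Prime]
    (hM : (ℓ : integralClosure ℤ ℂ) ∈ M) {e : G → FF M} {V : Subgroup G}
    {γ : G → FF M} (hL : Ld ℓ e V γ) {z v : G} (hz : z ∈ V) (hv : v ∈ V) {β b : G → FF M}
    (hβ : Lc e V γ z β) (hb : Lc e V γ v b) (hne : ∀ t ∈ Tg V γ, t * v * t⁻¹ ≠ z)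
    {q : Cu z → ℂ} {q' : Cu v → ℂ} (h1 : Rc ℓ q) (h2 : Rc ℓ q')
    (h3 : mulF q (eh M (fun t : Cu z => β t)) = q)
    (h4 : mulF q' (eh M (fun t : Cu v => b t)) = q') :
    ∑ᶠ χ ∈ Irr G, gbv (Cu z) z q χ * starRingEnd ℂ (gbv (Cu v) v q' χ) = 0 := by
  refine hq ℓ M hM G z v (el_mem hL hz) (el_mem hL hv) β b hβ.blk.ix hb.blk.ix ?_ q q' h1 h2 h3 h4
  intro x hx
  rcases hβ.blk.dich (T3.H49.bx_cj hx hb.blk) with h | h
  · exfalso
    obtain ⟨t, ht, htu⟩ := hs ℓ M hM G e V γ hL z hz v hv β b hβ hb x hx h.symm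
    exact hne t ht htu
  · exact h

omit [Finite G] in
theorem irr_conj {χ : G → ℂ} (hχ : χ ∈ Irr G) (x y : G) : χ (y * x * y⁻¹) = χ x := by
  obtain ⟨n, ρ, -, rfl⟩ := hχ
  exact ρ.char_conj x y

end tools

/-- row OAV -/
theorem oav (hq : QorStmt) (ha : QavStmt) (hf : QfvStmt) (hl : T3.LpwStmt) (hs : T3.FusStmt)
    (ho : T3.LocStmt) (h2 : C2.Sec2Stmt) : OavStmt := by
  intro ℓ _ M _ hM G H _ _ _ _ a e V γ y β π m K g hS j hj p hp hpr
  have hF : GoodF ℓ (FF M) := H50.fld ℓ Fact.out M hM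
  have hL := hS.ld
  have hlz := (hl ℓ (FF M) hF G e V γ hL y hS.mem β hS.lc j hj).2
  have hz : y ^ j ∈ V := pow_mem hS.mem j
  obtain ⟨q, hq1, hq2, hq3⟩ := avq ha hl hM hS hj hp hpr
  refine ⟨?_, ?_, ?_, ?_⟩
  · intro i hi v hv hne
    obtain ⟨b, hb⟩ := (ho ℓ (FF M) hF G e V γ hL v hv).1
    obtain ⟨q', h1, h3, h4⟩ := hf ℓ M hM G e V γ hL i hi v hv b hb
    rw [← core hq hs hM hL hz hv hlz hb hne hq1 h1 hq2 h3]
    refine finsum_mem_congr rfl fun χ hχ => ?_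
    rw [hq3, h4 χ (irr_conj hχ)]
  · intro b d c ε hD u hu hne
    have hb := hD.lc u hu
    have := Fintype.ofFinite (Cu u)
    have h1 : Rc ℓ (eh M (fun t : Cu u => b u t)) :=
      ⟨KF.H25.eh_cl _, fun x hx => H25.eh_sing T3.H62.wbo_ ℓ M hM _ hb.blk.ix.idem x hx⟩
    have h3 := (KF.H25.eh_idem (M := M) (fun t : Cu u => b u t)).2
    have key := core hq hs hM hL hz hu.1 hlz hb hne hq1 h1 hq2 h3
    have h5 : ∀ χ ∈ Irr G, Av ℓ π (y ^ j) p χ * starRingEnd ℂ (vv M b d u χ) =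
        gbv (Cu (y ^ j)) (y ^ j) q χ *
          starRingEnd ℂ (gbv (Cu u) u (eh M (fun t : Cu u => b u t)) χ) * (d u : ℂ)⁻¹ := by
      intro χ _
      rw [hq3]
      unfold vv gv
      rw [map_div₀, Complex.conj_natCast, div_eq_mul_inv, mul_assoc]
    rw [finsum_mem_congr rfl h5]
    have hfin : (Irr G).Finite := T3.H49.irr_fin G
    rw [finsum_mem_eq_finite_toFinset_sum _ hfin, ← Finset.sum_mul,
      ← finsum_mem_eq_finite_toFinset_sum _ hfin, key, zero_mul]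
  · intro j' hj' hne p' hp' hpr'
    obtain ⟨q', h1, h3, h4⟩ := avq ha hl hM hS hj' hp' hpr'
    have hlz' := (hl ℓ (FF M) hF G e V γ hL y hS.mem β hS.lc j' hj').2
    rw [← core hq hs hM hL hz (pow_mem hS.mem j') hlz hlz' hne hq1 h1 hq2 h3]
    refine finsum_mem_congr rfl fun χ _ => ?_
    rw [hq3, h4]
  · intro p' hp' hpr'
    have hc : j.Coprime ℓ := ((Nat.Prime.coprime_iff_not_dvd Fact.out).2 hj).symm
    exact (h2 ℓ a G H y π hS.qn p p' hpr hpr' j hc).1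

end Pool.Agent.PP.T12.H33
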